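import Pool.Agent.W623.SecF.FV
import Pool.Agent.W623.SecH.FgB
import Pool.Agent.W623.SecH.Padic
import Pool.Agent.W290.SecH.PlaceX
import Pool.Agent.W303.SH.Stabx
import Pool.Agent.W348.SH.Hens
import Pool.Agent.W335.SHU.Uniqx

/-!
# Over a p-adic field the sections of a ramified twist come from Weierstrass points modulo 2

Let `k` be a field of characteristic zero with a henselian discrete valuation ring `A` which has a
homomorphism `ρ` onto a finitely generated field `κ` of characteristic different from 2, for
instance a finite extension of `ℚ_p`, `p` odd.  Let `f ∈ A[X]` have even degree `≥ 4`, unit leading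
coefficient and separable reduction, and let `a ∈ k` have odd valuation.  The curve `C : a y² = f(x)`
is a ramified quadratic twist of a hyperelliptic curve with good reduction.  The rational points of
`C` over a p-adic field lie in the residue discs of the rational Weierstrass points `(θ, 0)`,
`f(θ) = 0`, and every such disc contains infinitely many of them.

Let `F = k(x, y)`, let `F_U` be the maximal extension of `F` unramified over `U`, where `U` is `C` or
an open subcurve, so that `π₁(U) = Gal(F_U/F)`, and let `M₂ ⊆ F_U` be the extension of `F` generated by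
the elements algebraic over `k` and the square roots of the functions `(x - α)/(x - β)`, `α` and
`β` roots of `f`; for `k` algebraically closed in `F` they generate the maximal abelian extension of
exponent 2 of `F k̄` that is unramified over `C`.

The theorem: for every section `s : G_k → π₁(U)` there is exactly one root `θ ∈ k` of `f` such that the
image of `s` in `Gal(M₂/F)` lies in the decomposition group of a prolongation to `M₂` of the valuation
of `F` at the point `(θ, 0)`.  Here `f` need not be a product of linear factors over `k`.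

The fundamental group is described through valuations.  Let `U` be a smooth geometrically connected
curve over `k` with function field `F`, let `Ω` be an algebraic closure of `F`, and let `F_U` be the
maximal extension of `F` inside `Ω` which is unramified over the closed points of `U`, that is, over
their local rings, which are valuation rings of `F`.  Then `π₁(U) = Gal(F_U/F)`, and the map
`π₁(U) → G_k` is the restriction of automorphisms to the algebraic closure of `k` in `Ω`.

Proof.  By a limit argument `κ` may be replaced by a finite field.  Over the extension of `k` with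
the same value group over which `f` splits, and which contains the square roots of the
`α - β`, a section gives square classes `s_{αβ}` such that `s_{αβ} (x - α)(x - β)` is the square of
an element of `F_U` fixed by the section.  Frobenius elements and the elements of inertia act on
the square roots of the functions `(x - α)/(x - β)`; the theory of sections at a place of
multiplicative type (parts SecC, SecD, SecF and SecH of helper623) shows that there is a root `θ`,
fixed by `G_k`, such that all the square roots of `(x - α)/(x - β) · (θ - β)/(θ - α)`,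
`α, β ≠ θ`, transform under the section as constants.  They have expansions in powers of the
local parameter `y` at `(θ, 0)`, and this gives the valuation of `M₂` (helper290, helper303).
-/

open Polynomial

namespace Pool.Agent.Results.MP_c385f6_ag.BranchPoints

universe u v w

section definitions

variable (k : Type u) (F : Type v) (Ω : Type w) [Field k] [Field F] [Field Ω] [Algebra k F]
  [Algebra F Ω] [Algebra k Ω]

/-- The inertia group of the valuation ring `W` of `Ω`, as a subgroup of `Gal(Ω/F)`: the
automorphisms of `Ω` over `F` that map `W` onto itself and act as the identity on its residue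
field. -/
noncomputable def inertia (W : ValuationSubring Ω) : Subgroup (Ω ≃ₐ[F] Ω) :=
  (W.inertiaSubgroup F).map (W.decompositionSubgroup F).subtype

/-- `F_U`, for a set `U` of valuation rings of `F`: the elements of `Ω` fixed by the inertia groups
of all valuation rings `W` of `Ω` with `W ∩ F ∈ U`.  If `Ω` is an algebraic closure of a field `F`
of characteristic zero, this is the maximal extension of `F` in `Ω` unramified over `U`. -/
noncomputable def unramified (U : Set (ValuationSubring F)) : IntermediateField F Ω :=
  ⨅ W : {W : ValuationSubring Ω // W.comap (algebraMap F Ω) ∈ U},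
    IntermediateField.fixedField (inertia F Ω W.1)

/-- The map `τ : M → M` acts as `σ : K → K` on the elements that the fields `K` and `M` have in
common when they are regarded as subfields of `Ω` through `i` and `j`. -/
def ActsAs {K M Ω : Type*} [Field K] [Field M] [Field Ω] (i : K →+* Ω) (j : M →+* Ω) (σ : K → K)
    (τ : M → M) : Prop :=
  ∀ c z, j z = i c → j (τ z) = i (σ c)

/-- Let `k ⊆ K ⊆ Ω` and `F ⊆ M ⊆ Ω` be fields.  A splitting of `Gal(M/F) → Gal(K/k)`: a continuous
homomorphism `s` from `Gal(K/k)` to `Gal(M/F)` such that `s(σ)` acts as `σ` on the elements of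
`K ∩ M`. -/
structure Splitting (K M : Type*) [Field K] [Field M] [Algebra k K] [Algebra F M] [Algebra K Ω]
    [Algebra M Ω] where
  /-- the homomorphism `Gal(K/k) → Gal(M/F)` -/
  toHom : (K ≃ₐ[k] K) →* (M ≃ₐ[F] M)
  cont : Continuous toHom
  compat : ∀ σ : K ≃ₐ[k] K, ActsAs (algebraMap K Ω) (algebraMap M Ω) σ (toHom σ)

/-- The sections of `π₁(U) = Gal(F_U/F) → G_k`: the continuous homomorphisms `s` from
`G_k = Gal(k̄/k)` to `Gal(F_U/F)`, where `k̄` is the algebraic closure of `k` in `Ω`, such that
`s(σ)` acts as `σ` on the elements of `k̄`. -/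
abbrev GaloisSection (U : Set (ValuationSubring F)) : Type w :=
  Splitting k F Ω (algebraicClosure k Ω) (unramified F Ω U)

end definitions

section attached

variable {k F M : Type*} [Field k] [Field F] [Field M] [Algebra k F] (j : F →+* M) (f : k[X])
  (x : F)

/-- `z` is algebraic over `k`, where `k` is mapped to `M` by `i`. -/
def AlgOver {k M : Type*} [Field k] [Field M] (i : k →+* M) (z : M) : Prop :=
  ∃ p : k[X], p ≠ 0 ∧ p.eval₂ i z = 0

/-- The subfield `M₂` of the extension `M` of `F`, generated over `F` by all elements of `M` that are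
algebraic over `k`, and by all square roots in `M` of the functions `(x - a)/(x - b)`, where `a` and
`b` are roots of `f` in `M`. -/
def M₂ : Subfield M :=
  Subfield.closure (Set.range j ∪ {z | AlgOver (j.comp (algebraMap k F)) z} ∪
    {z | ∃ a b : M, f.eval₂ (j.comp (algebraMap k F)) a = 0 ∧
      f.eval₂ (j.comp (algebraMap k F)) b = 0 ∧ z ^ 2 * (j x - b) = j x - a})

/-- The valuation ring `W` of `M` contains `k`, the function `t` is in its maximal ideal, and the
residue field of `W ∩ F` is `k`. -/
def LiesAbove (W : ValuationSubring M) (t : F) : Prop :=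
  (∀ c : k, j (algebraMap k F c) ∈ W) ∧ j t ∈ W.nonunits ∧
    ∀ z : F, j z ∈ W → ∃ c : k, j (z - algebraMap k F c) ∈ W.nonunits

/-- The splitting `s` of `Gal(M/F) → Gal(L/k)` is attached modulo 2 to the branch point
`(θ, 0)`: there is a valuation ring `W` of `M` above this point, such that the image of `s` lies in
the decomposition group of `W ∩ M₂`. -/
def Attached {L Ω : Type*} [Field L] [Field Ω] [Algebra F Ω] [Algebra k Ω] [Algebra k L]
    [Algebra F M] [Algebra L Ω] [Algebra M Ω] (s : Splitting k F Ω L M) (θ : k) : Prop :=
  ∃ W : ValuationSubring M, LiesAbove (k := k) (algebraMap F M) W (x - algebraMap k F θ) ∧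
    ∀ z ∈ M₂ (algebraMap F M) f x, ∀ σ, s.toHom σ z ∈ W ↔ z ∈ W

end attached

/-- Let `F` be the function field of the curve `a y² = f(x)` over `k`, and let `Ω` be an
algebraic closure of `F`.  For every set `U` of valuation rings of `F` over `k` and every section of
`π₁(U) → G_k` there is exactly one root `θ ∈ k` of `f` such that the section is attached modulo 2 to
the branch point `(θ, 0)`.  Such `U` are given by the smooth projective curve and by all its open
subcurves. -/
def SectionsAttached {k : Type u} [Field k] (f : k[X]) (a : k) : Prop :=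
  ∀ (F : Type v) (Ω : Type w) [Field F] [Field Ω] [Algebra k F] [Algebra F Ω] [Algebra k Ω]
    [IsScalarTower k F Ω] [IsAlgClosure F Ω] (x y : F) (U : Set (ValuationSubring F)),
    Transcendental k x → algebraMap k F a * y ^ 2 = aeval x f →
    IntermediateField.adjoin k {x, y} = (⊤ : IntermediateField k F) →
    (∀ O ∈ U, ∀ c : k, algebraMap k F c ∈ O) →
    ∀ s : GaloisSection k F Ω U, ∃! θ : k, f.eval θ = 0 ∧ Attached f x s θ

/-- The field `κ` is finitely generated (over its prime field). -/
def FGField (κ : Type) [Field κ] : Prop := ∃ s : Finset κ, Subfield.closure (s : Set κ) = ⊤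


lemma M₂_eq {k : Type u} {F : Type v} {Ω : Type w} [Field k] [Field F] [Field Ω] [Algebra k F]
    [Algebra F Ω] [Algebra k Ω] [IsScalarTower k F Ω] (U : Set (ValuationSubring F))
    (f : k[X]) (x : F) : M₂ (algebraMap F (unramified F Ω U)) f x =
      Pool.Agent.W623.SecH.Mtw Ω U x f := by
  have h1 : (algebraMap F (unramified F Ω U)).comp (algebraMap k F) =
      algebraMap k (unramified F Ω U) := by
    ext c
    exact (IsScalarTower.algebraMap_apply k F Ω c).symm
  unfold M₂ AlgOver
  rw [h1]
  rfl

/-- from canonical square roots to attached sections -/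
lemma attached_of {k : Type u} [Field k] [CharZero k] (f : k[X]) (a : k)
    (hex : ∀ (F : Type v) (Ω : Type w) [Field F] [Field Ω] [Algebra k F] [Algebra F Ω]
      [Algebra k Ω] [IsScalarTower k F Ω] [IsAlgClosed Ω] [Algebra.IsAlgebraic F Ω]
      (U : Set (ValuationSubring F)) (hU : ∀ O ∈ U, ∀ c : k, algebraMap k F c ∈ O)
      (G : Pool.Agent.W620.SC.GSection k F Ω U) (x y : F), Transcendental k x →
      algebraMap k F a * y ^ 2 = aeval x f →
      Pool.Agent.W623.SecH.Canon hU G x y f Set.univ) : SectionsAttached.{u, v, w} f a := by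
  intro F Ω _ _ _ _ _ _ _ x y U hx hxy hF hU s
  have hcl : IsAlgClosed Ω := IsAlgClosure.isAlgClosed F
  have halg : Algebra.IsAlgebraic F Ω := IsAlgClosure.isAlgebraic
  have hcan := hex F Ω U hU ⟨s.toHom, s.cont, s.compat⟩ x y hx hxy
  obtain ⟨θ, hθ, W, h1, h2, h3, h4⟩ := Pool.Agent.W623.SecH.att
    Pool.Agent.W290.SecH.placex.{w, w, w} Pool.Agent.W303.SH.stabx.{w, w, w} hU
    ⟨s.toHom, s.cont, s.compat⟩ f x y hx hF hcan
  have hM := M₂_eq (Ω := Ω) U f x
  refine ⟨θ, ⟨hθ, W, ⟨h1, h2, h3⟩, fun z hz => ?_⟩, ?_⟩
  · rw [hM] at hz
    exact h4 z hz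
  · rintro θ' ⟨hθ', W', ⟨h1', h2', -⟩, h4'⟩
    exact Pool.Agent.W623.SecH.att_unique Pool.Agent.W335.SHU.uniqx.{w, w, w} hU
      ⟨s.toHom, s.cont, s.compat⟩ f x y hx hcan θ' θ hθ' hθ W' W h1' h2'
      (fun z hz => h4' z (by rw [hM]; exact hz)) h1 h2 h4

lemma exists_val {κ : Type} [Field κ] (h : FGField κ) :
    ∀ S : Finset κ, ∃ O : ValuationSubring κ, Finite (IsLocalRing.ResidueField O) ∧
      (2 : κ)⁻¹ ∈ O ∧ ∀ s ∈ S, s ∈ O := by
  classical
  intro S
  obtain ⟨s, hs⟩ := h
  obtain ⟨O, hO, h1⟩ := Pool.Agent.W623.SecF.FV.of_fg s hs (insert (2 : κ)⁻¹ S)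
  exact ⟨O, hO, h1 _ (Finset.mem_insert_self _ _), fun s hs => h1 s (Finset.mem_insert_of_mem hs)⟩


/-- The element `a` of `k` has odd valuation with respect to the discrete valuation ring `A`. -/
def OddValuation {k : Type*} [Field k] (A : ValuationSubring k) (a : k) : Prop :=
  ∃ (π t : A) (m : ℤ), Irreducible π ∧ IsUnit t ∧ Odd m ∧ a = (t : k) * (π : k) ^ m

theorem result1 {k : Type u} [Field k] [CharZero k] (A : ValuationSubring k)
    [IsDiscreteValuationRing A] [HenselianLocalRing A] {κ : Type} [Field κ] (ρ : A →+* κ)
    (hρ : Function.Surjective ρ) (hκ : FGField κ) (h2 : (2 : κ) ≠ 0) (f : A[X])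
    (hlc : IsUnit f.leadingCoeff) (hs : (f.map ρ).Separable) (hev : Even f.natDegree)
    (h4 : 4 ≤ f.natDegree) (a : k) (ha : OddValuation A a) :
    SectionsAttached.{u, v, w} (f.map (algebraMap A k)) a := by
  obtain ⟨ϖ, t, m, hϖ, ht, hm, ha⟩ := ha
  refine attached_of _ _ ?_
  intro F Ω _ _ _ _ _ _ _ _ U hU G x y hx hxy
  exact Pool.Agent.W623.SecH.hens_canon A ρ hρ f hlc hs ϖ hϖ a t ht m hm ha hev
    Pool.Agent.W348.SH.hens.{u, w} h2 (exists_val hκ) h4 U hU G x y hxy hx

lemma fg_of_finite (κ : Type) [Field κ] [Finite κ] : FGField κ := by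
  have := Fintype.ofFinite κ
  refine ⟨Finset.univ, ?_⟩
  rw [Finset.coe_univ, Subfield.closure_univ]

open Pool.Agent.W623.SecH (eZp Zp) in
/-- (1) Let `k` be a field of characteristic zero with a henselian discrete valuation ring `A`, and
`ρ` a homomorphism from `A` onto a finitely generated field of characteristic different from 2.  Let
`f ∈ A[X]` have even degree `≥ 4`, unit leading coefficient and separable reduction, and let `a ∈ k`
have odd valuation.  Then every section of the fundamental group of the curve `a y² = f(x)`, or of an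
open subcurve, is attached modulo 2 to exactly one rational branch point `(θ, 0)`.  (2) The case
`k = ℚ_p`, `p` odd. -/
theorem result :
    (∀ (k : Type u) [Field k] [CharZero k] (A : ValuationSubring k) [IsDiscreteValuationRing A]
      [HenselianLocalRing A] (κ : Type) [Field κ] (ρ : A →+* κ), Function.Surjective ρ →
      FGField κ → (2 : κ) ≠ 0 → ∀ f : A[X], IsUnit f.leadingCoeff → (f.map ρ).Separable →
      Even f.natDegree → 4 ≤ f.natDegree → ∀ a : k, OddValuation A a →
      SectionsAttached.{u, v, w} (f.map (algebraMap A k)) a) ∧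
    (∀ (p : ℕ) [Fact p.Prime], p ≠ 2 → ∀ f : ℤ_[p][X], IsUnit f.leadingCoeff →
      (f.map (PadicInt.toZMod (p := p))).Separable → Even f.natDegree → 4 ≤ f.natDegree →
      ∀ a : ℚ_[p], Odd a.valuation →
      SectionsAttached.{0, v, w} (f.map (algebraMap ℤ_[p] ℚ_[p])) a) := by
  refine ⟨fun k _ _ A _ _ κ _ ρ hρ hκ h2 f hlc hs hev h4 a ha =>
    result1 A ρ hρ hκ h2 f hlc hs hev h4 a ha, ?_⟩
  intro p _ hp f hlc hs hev h4 a ha
  have hinj : Function.Injective (eZp p : ℤ_[p] →+* Zp p) :=
    (eZp p).injective
  have hd : (f.map (eZp p : ℤ_[p] →+* Zp p)).natDegree = f.natDegree :=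
    natDegree_map_eq_of_injective hinj f
  have h2 : (2 : ZMod p) ≠ 0 := by
    intro h
    have h1 : ((2 : ℕ) : ZMod p) = 0 := by exact_mod_cast h
    rw [ZMod.natCast_eq_zero_iff] at h1
    exact hp ((Nat.prime_dvd_prime_iff_eq Fact.out Nat.prime_two).1 h1)
  have h := result1 (Zp p)
    ((PadicInt.toZMod (p := p)).comp ((eZp p).symm : Zp p →+* ℤ_[p]))
    ((ZMod.ringHom_surjective _).comp (eZp p).symm.surjective)
    (fg_of_finite _) h2 (f.map (eZp p : ℤ_[p] →+* Zp p))
    (by rw [leadingCoeff_map_of_injective hinj]; exact hlc.map _)
    (by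
      rw [Polynomial.map_map]
      have h3 : ((PadicInt.toZMod (p := p)).comp
          ((eZp p).symm : Zp p →+* ℤ_[p])).comp
          (eZp p : ℤ_[p] →+* Zp p) = PadicInt.toZMod := by
        ext1 z
        simp
      rw [h3]
      exact hs)
    (by rwa [hd]) (by rwa [hd]) a (Pool.Agent.W623.SecH.odd_val p a ha)
  rw [Polynomial.map_map] at h
  exact h

end Pool.Agent.Results.MP_c385f6_ag.BranchPoints
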