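import Pool.Agent.W623.SecC.All

/-!
# Sections of ramified quadratic twists of hyperelliptic curves over `p`-adic fields

Let `A` be a discrete valuation ring with finite residue field of odd characteristic and with
fraction field `k` of characteristic zero, for instance the ring of integers of a finite extension
`k` of `ℚ_p` with `p` odd.  Let `f ∈ A[x]` have even degree `≥ 4`, unit leading coefficient and
separable reduction, and let `a ∈ k` have odd valuation.  So `a y² = f(x)` is a ramified quadratic
twist of a hyperelliptic curve with good reduction.  If the fundamental group of the curve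
`a y² = f(x)` over `k`, or of `a yⁿ = f(x)` with `n` even, or of an open subcurve of it, or of a
smooth curve over `k` that dominates it, has a section, then `f` has a root in the residue field; and
if `A` is henselian then `f` has a root `θ` in `A`, which gives the rational point `(θ, 0)`.  So
ramified quadratic twists of hyperelliptic curves with good reduction over `p`-adic fields, `p` odd,
have a section if and only if they have a rational point, and the section conjecture holds for those
without a rational Weierstrass point.

The fundamental group is described through valuations.  Let `U` be a smooth geometrically connected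
curve over `k` with function field `F`, let `Ω` be an algebraic closure of `F`, and let `F_U` be the
maximal extension of `F` inside `Ω` which is unramified over the closed points of `U`, that is, over
their local rings, which are valuation rings of `F`.  Then `π₁(U) = Gal(F_U/F)`, and the map
`π₁(U) → G_k` is the restriction of automorphisms to the algebraic closure of `k` in `Ω`.

Proof.  Let `s` be a section, `v` the valuation, `π` a uniformiser.  Let `S` be a subfield of `k̄`
stable under a Frobenius element, containing the roots `θ` of `f` and the square roots of its
`v`-units, whose value group is the one of `k`.  For two roots the function `(x - θ)/(x - θ')` has a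
square root in `F_U`; being fixed by `s(G_S)`, it is `π^j β²` with `β` fixed by `s(G_S)`.  The
parities of the `j` define a partition of the roots in two classes with an odd number of elements,
stable under Frobenius.  If both classes have at least three elements, take four roots, two in each
class.  They give an elliptic curve `w² = (z - e₀)(z - e₁)(z - e₂)` with good reduction and a point
`(z, w)` fixed by `s(G_S)` and by `s(φ)` for a power `φ` of Frobenius, such that some `z - e_i` has
odd parity.  The functions with divisor `2ⁿ(P - ∞)`, for the points `P` of order dividing `2ⁿ`, have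
`2ⁿ`-th roots in `F_U`, and this gives a homomorphism from the group of these points to `ℤ/2ⁿ` which
is invariant under `φ`.  As only finitely many points of order a power of `2` are fixed by `φ`, it is
killed by an integer that does not depend on `n`, and so the parities of the `z - e_i` are even, which
is a contradiction.  So one of the classes has one element, which is fixed by Frobenius, and `f` has
a root in the residue field of `v`.
-/

open Polynomial

namespace Pool.Agent.Results.MP_c385f6_ag.RamifiedTwists

universe u v w

section definitions

variable (k : Type u) (F : Type v) (Ω : Type w) [Field k] [Field F] [Field Ω] [Algebra k F]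
  [Algebra F Ω] [Algebra k Ω]

/-- The inertia group of the valuation ring `W` of `Ω`, as a subgroup of `Gal(Ω/F)`: the
automorphisms of `Ω` over `F` that map `W` onto itself and act as the identity on its residue
field. -/
noncomputable def inertia (W : ValuationSubring Ω) : Subgroup (Ω ≃ₐ[F] Ω) :=
  (W.inertiaSubgroup F).map (W.decompositionSubgroup F).subtype

/-- `F_U`, for a set `U` of valuation rings of `F`: the elements of `Ω` fixed by the inertia groups
of all valuation rings `W` of `Ω` with `W ∩ F ∈ U`.  If `Ω` is an algebraic closure of a field `F`
of characteristic zero, this is the maximal extension of `F` in `Ω` unramified over `U`. -/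
noncomputable def unramified (U : Set (ValuationSubring F)) : IntermediateField F Ω :=
  ⨅ W : {W : ValuationSubring Ω // W.comap (algebraMap F Ω) ∈ U},
    IntermediateField.fixedField (inertia F Ω W.1)

/-- The map `τ : M → M` acts as `σ : K → K` on the elements that the fields `K` and `M` have in
common when they are regarded as subfields of `Ω` through `i` and `j`. -/
def ActsAs {K M Ω : Type*} [Field K] [Field M] [Field Ω] (i : K →+* Ω) (j : M →+* Ω) (σ : K → K)
    (τ : M → M) : Prop :=
  ∀ c z, j z = i c → j (τ z) = i (σ c)

/-- Let `k ⊆ K ⊆ Ω` and `F ⊆ M ⊆ Ω` be fields.  A splitting of `Gal(M/F) → Gal(K/k)`: a continuous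
homomorphism `s` from `Gal(K/k)` to `Gal(M/F)` such that `s(σ)` acts as `σ` on the elements of
`K ∩ M`. -/
structure Splitting (K M : Type*) [Field K] [Field M] [Algebra k K] [Algebra F M] [Algebra K Ω]
    [Algebra M Ω] where
  /-- the homomorphism `Gal(K/k) → Gal(M/F)` -/
  toHom : (K ≃ₐ[k] K) →* (M ≃ₐ[F] M)
  cont : Continuous toHom
  compat : ∀ σ : K ≃ₐ[k] K, ActsAs (algebraMap K Ω) (algebraMap M Ω) σ (toHom σ)

/-- The sections of `π₁(U) = Gal(F_U/F) → G_k`: the continuous homomorphisms `s` from
`G_k = Gal(k̄/k)` to `Gal(F_U/F)`, where `k̄` is the algebraic closure of `k` in `Ω`, such that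
`s(σ)` acts as `σ` on the elements of `k̄`. -/
def GaloisSection (U : Set (ValuationSubring F)) : Type w :=
  Splitting k F Ω (algebraicClosure k Ω) (unramified F Ω U)

end definitions

/-- The smooth projective curve `a yⁿ = f(x)`, where `n` divides the degree of `f`, has no point
over `k`: neither in the affine part nor at infinity. -/
def NoPoint {k : Type u} [Field k] (n : ℕ) (a : k) (f : k[X]) : Prop :=
  (¬ ∃ x y : k, a * y ^ n = f.eval x) ∧ ¬ ∃ r : k, a * r ^ n = f.leadingCoeff

/-- Let `F` be any field over `k` that contains a point `(x, y)` of the curve `a yⁿ = f(x)`, for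
instance the function field of the curve, and let `Ω` be an algebraic closure of `F`.  Then for
every set `U` of valuation rings of `F` over `k` there is no section of `π₁(U) → G_k`.  If `F` is the
function field of the curve, such `U` are given by the smooth projective curve and by all its open
subcurves. -/
def NoSection {k : Type u} [Field k] (n : ℕ) (a : k) (f : k[X]) : Prop :=
  ∀ (F : Type v) (Ω : Type w) [Field F] [Field Ω] [Algebra k F] [Algebra F Ω] [Algebra k Ω]
    [IsScalarTower k F Ω] [IsAlgClosure F Ω] (x y : F) (U : Set (ValuationSubring F)),
    algebraMap k F a * y ^ n = aeval x f → (∀ O ∈ U, ∀ c : k, algebraMap k F c ∈ O) →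
      IsEmpty (GaloisSection k F Ω U)

/-- `a` has odd valuation: it is the product of a unit and an odd power of a uniformiser. -/
def OddValuation (A : Type u) {k : Type u} [CommRing A] [Field k] [Algebra A k] (a : k) : Prop :=
  ∃ (ϖ t : A) (m : ℤ), Irreducible ϖ ∧ IsUnit t ∧ Odd m ∧
    a = algebraMap A k t * algebraMap A k ϖ ^ m

/-- Let `A` be a discrete valuation ring with finite residue field of odd characteristic and with
fraction field `k` of characteristic zero.  Let `f ∈ A[x]` have even degree `≥ 4`, unit leading
coefficient and separable reduction, let `n ≥ 2` be even and let `a ∈ k` have odd valuation.  If the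
curve `a yⁿ = f(x)` has a point over `k` or a section, then `f` has a root modulo the maximal ideal,
and a root in `A` if `A` is henselian. -/
theorem result (A k : Type u) [CommRing A] [IsDomain A] [IsDiscreteValuationRing A]
    [Finite (IsLocalRing.ResidueField A)] [Field k] [CharZero k] [Algebra A k] [IsFractionRing A k]
    (h2 : IsUnit (2 : A)) (f : A[X]) (hlc : IsUnit f.leadingCoeff)
    (hs : (f.map (IsLocalRing.residue A)).Separable) (hev : Even f.natDegree)
    (h4 : 4 ≤ f.natDegree) (n : ℕ) (hn : 0 < n) (hne : Even n) (a : k) (ha : OddValuation A a) :
    (NoPoint n a (f.map (algebraMap A k)) ∧ NoSection.{u, v, w} n a (f.map (algebraMap A k))) ∨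
      ((∃ b : A, f.eval b ∈ IsLocalRing.maximalIdeal A) ∧
        (HenselianLocalRing A → ∃ θ : A, f.eval θ = 0)) := by
  by_cases hroot : ∃ b : A, f.eval b ∈ IsLocalRing.maximalIdeal A
  · right
    refine ⟨hroot, fun hA => ?_⟩
    obtain ⟨b, hb⟩ := hroot
    exact Pool.Agent.W623.SecC.hensel_root f hlc hs b hb
  · left
    push Not at hroot
    obtain ⟨ϖ, t, m, hϖ, ht, hm, ha⟩ := ha
    obtain ⟨l, rfl⟩ := hne
    have hlck : (f.map (algebraMap A k)).leadingCoeff = algebraMap A k f.leadingCoeff :=
      leadingCoeff_map_of_injective (IsFractionRing.injective A k) f
    refine ⟨⟨?_, ?_⟩, ?_⟩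
    · rintro ⟨x, y, hxy⟩
      refine Pool.Agent.W623.SecC.no_affine_point ϖ hϖ f hlc hev hroot a t ht m hm ha x (y ^ l) ?_
      rw [← hxy, ← pow_mul, mul_two]
    · rintro ⟨r, hr⟩
      refine Pool.Agent.W623.SecC.no_infinite_point ϖ hϖ f hlc a t ht m hm ha (r ^ l) ?_
      rw [← hlck, ← hr, ← pow_mul, mul_two]
    · intro F Ω _ _ _ _ _ _ _ x y U hxy hU
      have hcl : IsAlgClosed Ω := IsAlgClosure.isAlgClosed F
      have halg : Algebra.IsAlgebraic F Ω := IsAlgClosure.isAlgebraic
      have h5 := Pool.Agent.W623.SecC.local_no_section (F := F) (Ω := Ω) h2 f hlc hs hev h4 hroot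
        ϖ hϖ a t ht m hm ha U hU x (y ^ l) (by rw [← hxy, ← pow_mul, mul_two])
      exact ⟨fun s => h5.false ⟨s.toHom, s.cont, s.compat⟩⟩

end Pool.Agent.Results.MP_c385f6_ag.RamifiedTwists
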